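import Pool.Agent.H212R4.IndCol

/-!
# Connected subgraphs and chains of spanning subgraphs with prescribed finite colouring number

For every graph `G` and every finite `n` which is at most the colouring number of `G` (which may be
infinite), some subgraph of `G` has colouring number exactly `n`, it can be chosen connected if
`n ≥ 1`, and there is a chain of spanning subgraphs of `G` with the colouring numbers `1, …, n`.
-/

set_option autoImplicit false

open Cardinal Order Set
open Pool.Agent.Results.MP_279ba3_co.ColoringNumberStep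

universe u

namespace Pool.Agent.Results.MP_279ba3_co.ConnectedChain

theorem nonempty_of_one_le {V : Type u} {G : SimpleGraph V} (h : (1 : Cardinal.{u}) ≤ col G) :
    Nonempty V := by
  by_contra hcon
  rw [not_nonempty_iff] at hcon
  have h1 : col G ≤ 0 := col_le _ WellOrderingRel inferInstance fun x => (hcon.false x).elim
  have h2 := h.trans h1
  norm_num at h2

theorem one_le_col {V : Type u} [Nonempty V] (G : SimpleGraph V) : (1 : Cardinal.{u}) ≤ col G := by
  obtain ⟨r, hr, hx⟩ := col_mem G
  have h2 := lt_of_le_of_lt (zero_le (a := _)) (hx (Classical.arbitrary V))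
  exact Cardinal.one_le_iff_pos.2 h2

/-- spanning subgraphs -/
theorem exists_spanning {V : Type u} (G : SimpleGraph V) (n : ℕ) (h1 : 1 ≤ n)
    (hn : (n : Cardinal.{u}) ≤ col G) : ∃ H : SimpleGraph V, H ≤ G ∧ col H = n := by
  rcases n with _ | _ | s
  · omega
  · refine ⟨⊥, bot_le, ?_⟩
    have hV : Nonempty V := nonempty_of_one_le (G := G) (by simpa using hn)
    have h1 : col (⊥ : SimpleGraph V) ≤ ((0 + 1 : ℕ) : Cardinal.{u}) := by
      rw [col_le_iff]
      exact free_of_isolated (by simp)
    refine le_antisymm h1 ?_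
    simpa using one_le_col (⊥ : SimpleGraph V)
  · rcases hn.eq_or_lt with he | hlt
    · exact ⟨G, le_rfl, he.symm⟩
    · have h1 : ¬ Free G ∅ Set.univ (s + 1) := by
        rw [← col_le_iff]
        exact not_le.2 hlt
      obtain ⟨H, hH, hF, hnF⟩ := good_all s G _ ∅ Set.univ (Set.empty_disjoint _) rfl h1
      refine ⟨H, hH, ?_⟩
      rw [← col_le_iff] at hF hnF
      refine le_antisymm hF ?_
      rw [Nat.cast_succ, ← Cardinal.succ_natCast]
      exact Order.succ_le_of_lt (not_le.1 hnF)

/-- chains of spanning subgraphs -/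
theorem exists_chain {V : Type u} (n : ℕ) : ∀ (G : SimpleGraph V),
    (n : Cardinal.{u}) ≤ col G → ∃ H : ℕ → SimpleGraph V, Monotone H ∧ (∀ k, H k ≤ G) ∧
      ∀ k, 1 ≤ k → k ≤ n → col (H k) = (k : Cardinal.{u}) := by
  induction n with
  | zero => exact fun G _ => ⟨fun _ => ⊥, monotone_const, fun _ => bot_le, fun k h1 h2 => by omega⟩
  | succ n ih =>
    intro G hG
    obtain ⟨K, hKG, hK⟩ := exists_spanning G (n + 1) (by omega) hG
    obtain ⟨H, hmono, hHK, hH⟩ := ih K (by
      rw [hK]
      exact_mod_cast Nat.le_succ n)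
    refine ⟨fun k => if k ≤ n then H k else K, ?_, ?_, ?_⟩
    · intro k l hkl
      show (if k ≤ n then H k else K) ≤ (if l ≤ n then H l else K)
      by_cases hl : l ≤ n
      · rw [if_pos (hkl.trans hl), if_pos hl]
        exact hmono hkl
      · rw [if_neg hl]
        by_cases hk : k ≤ n
        · rw [if_pos hk]; exact hHK k
        · rw [if_neg hk]
    · intro k
      show (if k ≤ n then H k else K) ≤ G
      by_cases hk : k ≤ n
      · rw [if_pos hk]; exact (hHK k).trans hKG
      · rw [if_neg hk]; exact hKG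
    · intro k h1 h2
      show col (if k ≤ n then H k else K) = (k : Cardinal.{u})
      by_cases hk : k ≤ n
      · rw [if_pos hk]; exact hH k h1 hk
      · rw [if_neg hk, hK]
        have : k = n + 1 := by omega
        rw [this]

/-- if every component is free, then the graph is free -/
theorem free_of_components {V : Type u} {H : SimpleGraph V} {t : ℕ}
    (h : ∀ c : H.ConnectedComponent, Free H ∅ c.supp t) : Free H ∅ Set.univ t := by
  classical
  obtain ⟨b, hb⟩ := exists_inj H.ConnectedComponent
  refine Free.blocks (fun v => b (H.connectedComponentMk v)) fun i => ?_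
  by_cases hi : ∃ c, b c = i
  · obtain ⟨c, rfl⟩ := hi
    obtain ⟨ρ, hρ, hf⟩ := h c
    refine ⟨ρ, hρ, fun v hv => ?_⟩
    have hv' : v ∈ c.supp := hb hv.2
    refine (Set.encard_le_encard ?_).trans (hf v hv')
    rintro w ⟨h1, h2⟩
    have hw : H.connectedComponentMk w = H.connectedComponentMk v :=
      SimpleGraph.ConnectedComponent.connectedComponentMk_eq_of_adj h1.symm
    refine ⟨h1, Or.inr ?_⟩
    rcases h2 with (h2 | h2) | h2
    · exact absurd h2 (Set.notMem_empty _)
    · exfalso
      have h3 : b (H.connectedComponentMk w) < b c := h2.2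
      have h4 : b (H.connectedComponentMk v) = b c := hv.2
      rw [hw, h4] at h3
      exact lt_irrefl _ h3
    · exact ⟨hb h2.1.2, h2.2⟩
  · obtain ⟨ρ, hρ⟩ := exists_inj V
    refine ⟨ρ, hρ, fun v hv => ?_⟩
    exact absurd ⟨_, hv.2⟩ hi

/-- some component has the same finite colouring number -/
theorem exists_component {V : Type u} (H : SimpleGraph V) (n : ℕ) (h1 : 1 ≤ n)
    (hn : col H = (n : Cardinal.{u})) :
    ∃ c : H.ConnectedComponent, col (H.induce c.supp) = (n : Cardinal.{u}) := by
  obtain ⟨s, rfl⟩ : ∃ s, n = s + 1 := ⟨n - 1, by omega⟩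
  have hup : ∀ c : H.ConnectedComponent,
      col (H.induce c.supp) ≤ ((s + 1 : ℕ) : Cardinal.{u}) := by
    intro c
    rw [col_le_iff, Pool.Agent.H212R4.IndCol.free_induce]
    have h2 : Free H ∅ Set.univ s := by rw [← col_le_iff, hn]
    exact h2.mono (fun v _ w h _ => h) subset_rfl (subset_univ _) le_rfl
  rcases s with _ | t
  · have hV : Nonempty V := nonempty_of_one_le (G := H) (by rw [hn]; simp)
    obtain ⟨v⟩ := hV
    refine ⟨H.connectedComponentMk v, le_antisymm (hup _) ?_⟩
    have : Nonempty (H.connectedComponentMk v).supp := ⟨⟨v, rfl⟩⟩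
    simpa using one_le_col (H.induce (H.connectedComponentMk v).supp)
  · by_contra hcon
    push Not at hcon
    have h2 : ∀ c : H.ConnectedComponent,
        col (H.induce c.supp) ≤ ((t + 1 : ℕ) : Cardinal.{u}) := by
      intro c
      have h3 := lt_of_le_of_ne (hup c) (hcon c)
      rw [Nat.cast_succ, ← Cardinal.succ_natCast, Order.lt_succ_iff] at h3
      exact h3
    have h3 : Free H ∅ Set.univ t := free_of_components fun c => by
      rw [← Pool.Agent.H212R4.IndCol.free_induce, ← col_le_iff]
      exact h2 c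
    rw [← col_le_iff, hn] at h3
    have h4 : t + 1 + 1 ≤ t + 1 := by exact_mod_cast h3
    omega

/-- connected subgraphs -/
theorem exists_connected {V : Type u} (G : SimpleGraph V) (n : ℕ) (h1 : 1 ≤ n)
    (hn : (n : Cardinal.{u}) ≤ col G) :
    ∃ G' : G.Subgraph, G'.Connected ∧ col G'.coe = (n : Cardinal.{u}) := by
  obtain ⟨H, hH, hc⟩ := exists_spanning G n h1 hn
  obtain ⟨c, hc⟩ := exists_component H n h1 hc
  let G' : G.Subgraph :=
    { verts := c.supp
      Adj := fun a b => H.Adj a b ∧ a ∈ c.supp ∧ b ∈ c.supp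
      adj_sub := fun h => hH h.1
      edge_vert := fun h => h.2.1
      symm := ⟨fun a b h => ⟨h.1.symm, h.2.2, h.2.1⟩⟩ }
  have e : G'.coe ≃g H.induce c.supp :=
    ⟨Equiv.refl _, fun {a b} => ⟨fun h => ⟨h, a.2, b.2⟩, fun h => h.1⟩⟩
  refine ⟨G', ?_, (col_iso e).trans hc⟩
  rw [SimpleGraph.Subgraph.connected_iff']
  exact e.connected_iff.2 c.connected_toSimpleGraph

/-- Let `G` be a graph, and let the natural number `n` be at most the colouring number of `G`
(finite or infinite).
(1) Some subgraph of `G` has colouring number `n`.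
(2) If `n ≥ 1` then some connected subgraph of `G` has colouring number `n`.
(3) There are spanning subgraphs `H 0 ≤ H 1 ≤ H 2 ≤ …` of `G` such that `H k` has colouring number
`k` for all `1 ≤ k ≤ n`. -/
theorem result (V : Type u) (G : SimpleGraph V) (n : ℕ) (hn : (n : Cardinal.{u}) ≤ col G) :
    (∃ G' : G.Subgraph, col G'.coe = (n : Cardinal.{u})) ∧
    (1 ≤ n → ∃ G' : G.Subgraph, G'.Connected ∧ col G'.coe = (n : Cardinal.{u})) ∧
    (∃ H : ℕ → SimpleGraph V, Monotone H ∧ (∀ k, H k ≤ G) ∧
      ∀ k, 1 ≤ k → k ≤ n → col (H k) = (k : Cardinal.{u})) :=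
  ⟨col_subgraph G n hn, fun h1 => exists_connected G n h1 hn, exists_chain n G hn⟩

end Pool.Agent.Results.MP_279ba3_co.ConnectedChain
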